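import Pool.Agent.TH485.Uni.Main
import Pool.Agent.H369R2.TD.Asy
import Pool.Agent.H369R2.TD.Link

/-!
The constant of the determinant codes with the table `dn` of bounds for `t(m+1, m)` which holds for
all `m`: `t(r+1, r) ≤ 1.9184 / (r + 1)` for all large `r`.
-/

set_option autoImplicit false

open Finset Filter

namespace Pool.Agent.J6H5.TD

open Pool.Agent.H369R2.TD Pool.Agent.TH485.Uni

/-- the bounds for `j * t(j, j-1)` -/
noncomputable def cc (j : ℕ) : ℝ := (g j : ℝ) / 100000

theorem dn_mul (m : ℕ) : ((m : ℝ) + 1) * dn m = cc (m + 1) := by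
  unfold dn cc
  have : (0 : ℝ) < (m : ℝ) + 1 := by positivity
  field_simp

theorem g_small : ∀ j < 64, g j ≤ 263000 := by decide

theorem g_le (j : ℕ) : g j ≤ 263000 := by
  rcases Nat.lt_or_ge j 64 with h | h
  · exact g_small j h
  · rw [g_big h]; norm_num

theorem cc_le (j : ℕ) : cc j ≤ 263 / 100 := by
  unfold cc
  have h : (g j : ℝ) ≤ 263000 := by exact_mod_cast g_le j
  linarith

theorem exp_up : Real.exp (137 / 20) < 943882 / 1000 := by
  have h1 : Real.exp (137 / 20) ^ 20 = Real.exp 1 ^ 137 := by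
    rw [← Real.exp_nat_mul, ← Real.exp_nat_mul]; norm_num
  have h2 := Real.exp_one_lt_d9
  refine lt_of_pow_lt_pow_left₀ 20 (by norm_num) ?_
  rw [h1]
  calc Real.exp 1 ^ 137 < 2.7182818286 ^ 137 := by gcongr
    _ < _ := by norm_num

theorem exp_lo : 943880 / 1000 < Real.exp (137 / 20) := by
  have h1 : Real.exp (137 / 20) ^ 20 = Real.exp 1 ^ 137 := by
    rw [← Real.exp_nat_mul, ← Real.exp_nat_mul]; norm_num
  have h2 := Real.exp_one_gt_d9
  refine lt_of_pow_lt_pow_left₀ 20 (Real.exp_pos _).le ?_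
  rw [h1]
  calc (943880 / 1000 : ℝ) ^ 20 < 2.7182818283 ^ 137 := by norm_num
    _ < _ := by gcongr

theorem exp_small : Real.exp (1 / 10000) ≤ 10001 / 10000 + 1 / 100000000 := by
  have := Real.exp_bound' (x := 1 / 10000) (by norm_num) (by norm_num) (n := 2) (by norm_num)
  refine this.trans ?_
  simp [Finset.sum_range_succ, Nat.factorial]
  norm_num

theorem psi_sum : ∑ j ∈ range 22, (cc j - 263 / 100) * ((68501 / 10000 : ℝ) ^ j / (j.factorial : ℝ))
    ≤ - (7862 / 10) := by
  simp only [Finset.sum_range_succ, Finset.sum_range_zero, cc, g, cN, List.getD_cons_zero,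
    List.getD_cons_succ]
  norm_num [Nat.factorial]

theorem psi_num : Real.exp (-(137 / 20)) * Psi 22 cc (263 / 100) (68501 / 10000) ≤
    17974 / 10000 := by
  have hE : (0 : ℝ) < Real.exp (-(137 / 20)) := Real.exp_pos _
  have hlow : (1000 : ℝ) / 943882 ≤ Real.exp (-(137 / 20)) := by
    rw [Real.exp_neg, ← one_div, div_le_div_iff₀ (by norm_num) (Real.exp_pos _)]
    have := exp_up
    linarith
  have hx : Real.exp (-(137 / 20)) * Real.exp (68501 / 10000) = Real.exp (1 / 10000) := by
    rw [← Real.exp_add]; norm_num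
  rw [Psi, mul_add]
  have h1 : Real.exp (-(137 / 20)) * (263 / 100 * Real.exp (68501 / 10000))
      = 263 / 100 * Real.exp (1 / 10000) := by
    rw [← hx]; ring
  rw [h1]
  have h2 := exp_small
  have h4 := psi_sum
  have h3 : Real.exp (-(137 / 20)) *
      ∑ j ∈ range 22, (cc j - 263 / 100) * ((68501 / 10000 : ℝ) ^ j / (j.factorial : ℝ))
      ≤ (1000 : ℝ) / 943882 * (- (7862 / 10)) := by
    nlinarith
  linarith

theorem tur_19184 : ∀ᶠ r : ℕ in atTop, Tur r ((19184 / 10000) / ((r : ℝ) + 1)) := by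
  have hP : Real.exp (-(137 / 20)) ≤ 10595 / 10000000 := by
    rw [Real.exp_neg, ← one_div, div_le_div_iff₀ (Real.exp_pos _) (by norm_num)]
    have := exp_lo
    linarith
  refine asymptotic (δ := dn) (c := cc) (J := 22) (K := 263 / 100) tur_dn dn_nonneg
    (by simp [cc, g_zero]) (fun m _ => (dn_mul m).le) (fun m => (dn_mul m).le.trans (cc_le _))
    (by norm_num) (y₁ := 137 / 20) (x₁ := 68501 / 10000) (y₂ := 137 / 20)
    (x₂ := 68501 / 10000) (lam := 96848 / 100000) (D₁ := 17974 / 10000) (D₂ := 17974 / 10000)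
    (P₁ := 10595 / 10000000) (P₂ := 10595 / 10000000)
    (by norm_num) (by norm_num) (by norm_num) (by norm_num) (by norm_num) (by norm_num)
    psi_num psi_num hP (by norm_num) hP (by norm_num) ?_
  norm_num

end Pool.Agent.J6H5.TD
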